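import Pool.Agent.K1H25.JS.Fin
import Pool.Agent.K1H21.JS.WE
import Pool.Agent.K1H26.JS.Grow
import Pool.Agent.K1H65.JS.LamP

/-!
# MP_5175aa_an — fibres of the optimal 1-ratio function over irrationals

`K1H25.JS.letter α` is the pair `𝖠_α = (A_0, α A_1)` (letter `0` = `false`, letter `1` = `true`),
`K1H25.JS.prodN α x n = A_{x_n} ⋯ A_{x_1}`, `K1H25.JS.jsr α` its joint spectral radius,
`K1H25.JS.WeaklyExtremal α x` and `K1H25.JS.freq x n = ς_n(x)` as in the problem,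
`K1H25.JS.IsOptimalRatio α r`: `r ∈ [0,1]` is the unique optimal 1-ratio of `𝖠_α`, that is
`ς_n(x) → r` for every weakly extremal `x`.

The theorem: for every `α ∈ [0,1]` weakly extremal words exist and there is exactly one `r = 𝔯(α)`
with this property; and for every irrational `γ ∈ [0,1/2]` (Liouville or not) there is exactly one
`α ∈ [0,1]` with `𝔯(α) = γ`.
-/

namespace Pool.Agent.Results.MP_5175aa_an.OptimalRatioFibres

open K1H25.JS

theorem result :
    (∀ α : ℝ, 0 ≤ α → α ≤ 1 →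
      (∃ x : ℕ → Bool, WeaklyExtremal α x) ∧ ∃! r : ℝ, IsOptimalRatio α r) ∧
    (∀ γ : ℝ, Irrational γ → 0 ≤ γ → γ ≤ 1 / 2 →
      ∃! α : ℝ, (0 ≤ α ∧ α ≤ 1) ∧ IsOptimalRatio α γ) :=
  main Pool.Agent.K1H26.JS.t_GROW Pool.Agent.K1H21.JS.t_WE Pool.Agent.K1H21.JS.t_ZERO
    Pool.Agent.K1H65.JS.t_LAM Pool.Agent.K1H65.JS.t_PATH

end Pool.Agent.Results.MP_5175aa_an.OptimalRatioFibres
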